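import Mathlib
import Pool.Agent.Helper24.GR.Defs
import Pool.Agent.Helper24.GR.Basic
import Pool.Agent.Helper24.GR.Disjoint
import Pool.Agent.Helper87.GR.Comp
import Pool.Agent.Helper87.GR.Decomp

set_option autoImplicit false

/-! Countable reachability. -/

namespace Pool.Agent.Helper24.GR

open Function Order

universe u v

variable {V : Type u} {E : Type v}

theorem ct_reach_mono {D : Dig V E} {S S' Φ Ψ : Set E} (h : Reach D S Φ Ψ) (hS : S ⊆ S') :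
    Reach D S' Φ Ψ := by
  obtain ⟨ι, i1, i2, C, h1, h2, h3, h4⟩ := h
  exact ⟨ι, i1, i2, C, h1, fun i => (h2 i).trans hS, h3, h4⟩

/-- One block. -/
theorem ct_block
    (decomp : ∀ (D : Dig V E) (B : Set E), Bal D B →
      ∃ FF : Set (Set E), FF.PairwiseDisjoint id ∧ (∀ C ∈ FF, GenCyc D C) ∧ ⋃₀ FF = B)
    (D : Dig V E) {A B : Set E} (hA : Bal D A) (hB : Bal D B) :
    Reach D (symmDiff A B) A B := by
  obtain ⟨FF, h1, h2, h3⟩ := decomp (D.flip A) (symmDiff A B) (hA.symmDiff_flip hB)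
  have h4 := reach_disjoint D A FF h1 h2
  rw [h3, symmDiff_symmDiff_cancel_left] at h4
  exact h4

/-- The version with the two other modules as hypotheses. -/
theorem ct_reach_countable
    (decomp : ∀ (D : Dig V E) (B : Set E), Bal D B →
      ∃ FF : Set (Set E), FF.PairwiseDisjoint id ∧ (∀ C ∈ FF, GenCyc D C) ∧ ⋃₀ FF = B)
    (reach_comp : ∀ (D : Dig V E) {κ : Type v} [LinearOrder κ] [WellFoundedLT κ]
      (S O O' : κ → Set E) (Φ Ψ : Set E)
      (_ : ∀ e, {k | e ∈ S k}.Finite)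
      (_ : ∀ k, Reach D (S k) (O k) (O' k))
      (_ : ∀ k e, (∀ j < k, e ∉ S j) → (e ∈ O k ↔ e ∈ Φ))
      (_ : ∀ k e, ∀ j < k, e ∈ S j → (∀ i, j < i → i < k → e ∉ S i) → (e ∈ O k ↔ e ∈ O' j))
      (_ : ∀ e, (∀ j, e ∉ S j) → (e ∈ Ψ ↔ e ∈ Φ))
      (_ : ∀ e, ∀ j, e ∈ S j → (∀ i, j < i → e ∉ S i) → (e ∈ Ψ ↔ e ∈ O' j)),
      Reach D (⋃ k, S k) Φ Ψ)
    (D : Dig V E) (S : Set E) (hS : S.Countable) (Ω : Set E) (hΩ : Ω ⊆ S)
    (h : ∀ T : Finset E, (T : Set E) ⊆ S → ∃ Δ ⊆ S, Bal D Δ ∧ ∀ e ∈ T, (e ∈ Δ ↔ e ∈ Ω)) :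
    Reach D S ∅ Ω := by
  classical
  -- an exhaustion by finite sets
  obtain ⟨T, hTS, hTmem⟩ : ∃ T : ℕ → Finset E, (∀ n, (T n : Set E) ⊆ S) ∧
      ∀ e ∈ S, ∃ N, ∀ n, N ≤ n → e ∈ T n := by
    rcases S.eq_empty_or_nonempty with h0 | h0
    · subst h0
      exact ⟨fun _ => ∅, fun n => by simp, fun e he => he.elim⟩
    · obtain ⟨f, hf⟩ := hS.exists_eq_range h0
      refine ⟨fun n => (Finset.range n).image f, fun n => ?_, fun e he => ?_⟩
      · rw [Finset.coe_image, hf]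
        exact Set.image_subset_range _ _
      · rw [hf] at he
        obtain ⟨m, rfl⟩ := he
        exact ⟨m + 1, fun n hn => Finset.mem_image_of_mem f (Finset.mem_range.2 (by omega))⟩
  choose Δ hΔS hΔb hΔ using fun n => h (T n) (hTS n)
  obtain ⟨Γ, hΓ0, hΓs⟩ : ∃ Γ : ℕ → Set E, Γ 0 = ∅ ∧ ∀ n, Γ (n + 1) = Δ n :=
    ⟨fun n => n.casesOn ∅ Δ, rfl, fun n => rfl⟩
  have hΓb : ∀ n, Bal D (Γ n) := by
    rintro (_ | n)
    · rw [hΓ0]; exact bal_empty
    · rw [hΓs]; exact hΔb n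
  have hΓS : ∀ n, Γ n ⊆ S := by
    rintro (_ | n)
    · rw [hΓ0]; exact Set.empty_subset _
    · rw [hΓs]; exact hΔS n
  -- eventually correct
  have hev : ∀ e ∈ S, ∃ N, ∀ n, N ≤ n → (e ∈ Γ n ↔ e ∈ Ω) := by
    intro e he
    obtain ⟨N, hN⟩ := hTmem e he
    refine ⟨N + 1, fun n hn => ?_⟩
    obtain ⟨m, rfl⟩ : ∃ m, n = m + 1 := ⟨n - 1, by omega⟩
    rw [hΓs]
    exact hΔ m e (hN m (by omega))
  have hstep : ∀ e j, e ∉ symmDiff (Γ j) (Γ (j + 1)) → (e ∈ Γ (j + 1) ↔ e ∈ Γ j) := by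
    intro e j hj
    rw [Set.mem_symmDiff] at hj
    tauto
  have hconst : ∀ e j k, j ≤ k → (∀ i, j ≤ i → i < k → e ∉ symmDiff (Γ i) (Γ (i + 1))) →
      (e ∈ Γ k ↔ e ∈ Γ j) := by
    intro e j k hjk
    induction k, hjk using Nat.le_induction with
    | base => intro _; rfl
    | succ k hk ih =>
      intro h'
      rw [hstep e k (h' k hk (by omega))]
      exact ih fun i h1 h2 => h' i h1 (by omega)
  have hSS : ∀ k, symmDiff (Γ k) (Γ (k + 1)) ⊆ S := by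
    intro k e he
    rcases he with he | he
    · exact hΓS _ he.1
    · exact hΓS _ he.1
  have hlim : ∀ e j, (∀ i, j ≤ i → e ∉ symmDiff (Γ i) (Γ (i + 1))) → (e ∈ Ω ↔ e ∈ Γ j) := by
    intro e j hj
    by_cases he : e ∈ S
    · obtain ⟨N, hN⟩ := hev e he
      rw [← hN (max N j) (le_max_left _ _)]
      exact hconst e j _ (le_max_right _ _) fun i h1 _ => hj i h1
    · exact ⟨fun h1 => (he (hΩ h1)).elim, fun h1 => (he (hΓS _ h1)).elim⟩
  refine ct_reach_mono (reach_comp D (κ := ULift.{v} ℕ)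
    (fun k => symmDiff (Γ k.down) (Γ (k.down + 1))) (fun k => Γ k.down)
    (fun k => Γ (k.down + 1)) ∅ Ω ?_ ?_ ?_ ?_ ?_ ?_) (Set.iUnion_subset fun k => hSS _)
  · intro e
    by_cases he : e ∈ S
    · obtain ⟨N, hN⟩ := hev e he
      refine Set.Finite.subset (s := ULift.down ⁻¹' (Set.Iio N)) ?_ ?_
      · exact (Set.finite_Iio N).preimage ULift.down_injective.injOn
      · rintro ⟨k⟩ hk
        change k < N
        by_contra hkN
        push Not at hkN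
        have h1 := hN k hkN
        have h2 := hN (k + 1) (by omega)
        have hk' : e ∈ symmDiff (Γ k) (Γ (k + 1)) := hk
        rw [Set.mem_symmDiff] at hk'
        tauto
    · refine Set.finite_empty.subset ?_
      rintro ⟨k⟩ hk
      exact he (hSS k hk)
  · rintro ⟨k⟩
    exact ct_block decomp D (hΓb k) (hΓb (k + 1))
  · rintro ⟨k⟩ e hj
    rw [← hΓ0]
    exact hconst e 0 k (Nat.zero_le _) fun i _ h2 => hj ⟨i⟩ h2
  · rintro ⟨k⟩ e ⟨j⟩ hjk _ hij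
    have hjk' : j < k := hjk
    exact hconst e (j + 1) k hjk' fun i h1 h2 => hij ⟨i⟩ (show j < i from h1) h2
  · intro e hj
    rw [← hΓ0]
    exact hlim e 0 fun i _ => hj ⟨i⟩
  · rintro e ⟨j⟩ _ hij
    exact hlim e (j + 1) fun i h1 => hij ⟨i⟩ (show j < i from h1)

theorem reach_countable (D : Dig V E) (S : Set E) (hS : S.Countable) (Ω : Set E) (hΩ : Ω ⊆ S)
    (h : ∀ T : Finset E, (T : Set E) ⊆ S → ∃ Δ ⊆ S, Bal D Δ ∧ ∀ e ∈ T, (e ∈ Δ ↔ e ∈ Ω)) :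
    Reach D S ∅ Ω :=
  ct_reach_countable decomp reach_comp D S hS Ω hΩ h

end Pool.Agent.Helper24.GR
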